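import Pool.Agent.N88.ETC.Sixteen

/-! # MP_d26ff6_al: quaternionic structures with core of index at most sixteen

Let `S = (G, -1, q)` be a finite quaternionic structure whose quaternions lie in a group `B` of
exponent two in which `q` is additive (for instance the structure of any field), let
`V(a) = {b : q(a,b) = 0}`, and let the core `C` be the smallest subgroup of `G` which contains all
`a` with `V(a)` of index at most two in `G`, and all `a` with `V(a) C = G`.

Theorem.  Symbols on a subgroup generated by `C` and one element are functions of the quaternions.
If `C` has index at most sixteen in `G`, then `S` is of elementary type.  It is enough that all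
closed subgroups of index at least eight are generated by `C` and one element.

Outline. A quaternion `t ≠ 0` is single if `t = q(c,z)`, where all values `q(c,x)` are `0` or `t`.
Linkage shows that the characters `x ↦ q(c,x)` belonging to a minimal relation between single
quaternions, or to linearly independent ones, are closed under intersection of supports, so all
members of such a family are taken at one point: relations between single quaternions hold for all
symbols, and a sum of single quaternions is a quaternion with a slot in the core.  The symbols on
the core are determined by single quaternions, and linkage gives the case of one more element. -/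

set_option autoImplicit false

namespace Pool.Agent.Results.MP_d26ff6_al.CoreSixteen

open Pool.Agent.H315R3.ETC Pool.Agent.TH673.VG

universe v

/-- `χ` is a symbol on the subgroup `W` of `G`: on `W × G` it is additive in both variables, and
`χ(w,b) = 0` for all `w ∈ W`, `b ∈ G` with `q(w,b) = 0`.  Only the values on `W × G` matter. -/
def IsSymbol (S : QData) (W : Subgroup S.G) (χ : S.G → S.G → ZMod 2) : Prop :=
  (∀ a ∈ W, ∀ b ∈ W, ∀ c, χ (a * b) c = χ a c + χ b c) ∧
  (∀ a ∈ W, ∀ b c, χ a (b * c) = χ a b + χ a c) ∧
  (∀ a ∈ W, ∀ b, S.q a b = S.zero → χ a b = 0)

theorem result (S : QData) (hS : IsQuat S) (hfin : Finite S.G)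
    -- the quaternions lie in a group `B` of exponent two in which `q` is additive
    {B : Type v} [AddCommGroup B] (hB : ∀ b : B, b + b = 0) (β : S.G → S.G → B)
    (hmul : ∀ a b c, β a (b * c) = β a b + β a c)
    (hq : ∀ a b c d, β a b = β c d ↔ S.q a b = S.q c d) :
    -- the core has index at most sixteen
    ((Core S).index ≤ 16 → Elem S) ∧
    -- the closed subgroups of index at least eight are generated by the core and one element
    ((∀ H : Subgroup S.G, Closed S H → 8 ≤ H.index →
      ∃ x : S.G, H = Core S ⊔ Subgroup.zpowers x) → Elem S) ∧
    -- symbols on a subgroup generated by the core and one element are functions of the quaternions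
    (∀ (x : S.G) (χ : S.G → S.G → ZMod 2), IsSymbol S (Core S ⊔ Subgroup.zpowers x) χ →
      ∃ Φ : B → ZMod 2, (∀ s t, Φ (s + t) = Φ s + Φ t) ∧
        ∀ y ∈ Core S ⊔ Subgroup.zpowers x, ∀ g, χ y g = Φ (β y g)) := by
  have hA : Pool.Agent.N88.ETC.Add S β := ⟨hB, hmul, hq⟩
  exact ⟨fun h => Pool.Agent.N88.ETC.elem_of_sixteen hS hA h,
    fun h => Pool.Agent.N88.ETC.elem_of_gen hS hA h,
    fun x χ hχ => Pool.Agent.N88.ETC.exists_fun hS hA hχ le_sup_left x rfl⟩

end Pool.Agent.Results.MP_d26ff6_al.CoreSixteen
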