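import Pool.Agent.N88.TS.Fin

/-! # MP_d26ff6_al: quaternionic structures with at most twenty-seven quaternions

A finite quaternionic structure whose quaternions lie in a group of exponent two in which `q` is
additive (for instance the structure of any field), and which has at most 27 quaternions, is of
elementary type.  It is enough that, for all `x, y, z`, at most 27 quaternions have a slot in
`⟨x,y,z⟩` (or that `⟨x,y,z⟩` is small in one of two other ways).

Outline.  A structure which is not of elementary type has a factor structure with elements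
`x, y, z` and a character `f` of `G` such that `(p,b) ↦ ε(p) f(b)` (`ε(x) = ε(y) = ε(z) = 1`) is a
symbol on `⟨x,y,z⟩` which is not a function of the quaternions.  The quaternions
`(q(p,b), ε(p) f(b))` form seven subgroups `X_p`, indexed by the points of the Fano plane, with
`X_(p+q) ≤ X_p + X_q`, and `θ = (0,1)` lies in the sum of the seven groups, but by linkage not in
the sum of two of them.  Counting modulo the largest `X_p` shows that the union of the seven
subgroups has at least 28 elements. -/

set_option autoImplicit false

namespace Pool.Agent.Results.MP_d26ff6_al.FewQuaternions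

open Pool.Agent.H315R3.ETC

universe v

/-- the quaternions with a slot in the subset `W` of `G` -/
def quats (S : QData) (W : Set S.G) : Set S.Q := {t | ∃ g ∈ W, ∃ b : S.G, S.q g b = t}

/-- `Q_a`: the subgroup of `B` generated by all `β(a,b)`, `b ∈ G` (it is the set of these values,
if `β` is additive in the second variable and `B` has exponent two) -/
def QGroup {G : Type} {B : Type v} [AddCommGroup B] (β : G → G → B) (a : G) : AddSubgroup B :=
  AddSubgroup.closure (Set.range (β a))

/-- `p` is one of `x, y, z, xyz` -/
def IsPoint {G : Type} [CommGroup G] (x y z p : G) : Prop :=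
  p = x ∨ p = y ∨ p = z ∨ p = x * y * z

theorem result (S : QData) (hS : IsQuat S) (hfin : Finite S.G)
    -- the quaternions lie in a group `B` of exponent two in which `q` is additive
    {B : Type v} [AddCommGroup B] (hB : ∀ b : B, b + b = 0) (β : S.G → S.G → B)
    (hmul : ∀ a b c, β a (b * c) = β a b + β a c)
    (hq : ∀ a b c d, β a b = β c d ↔ S.q a b = S.q c d) :
    -- at most 27 quaternions
    ((quats S Set.univ).ncard ≤ 27 → Elem S) ∧
    -- for all `x, y, z`: at most 27 quaternions with a slot in `⟨x,y,z⟩`,
    ((∀ x y z : S.G, (quats S (Subgroup.closure {x, y, z} : Subgroup S.G)).ncard ≤ 27 ∨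
      -- or the four groups `Q_p`, `p = x, y, z, xyz`, have at most four elements,
      (∀ p : S.G, IsPoint x y z p → Nat.card (QGroup β p) ≤ 4) ∨
      -- or one of them has index at most two in `Q_x + Q_y + Q_z`
      ∃ p : S.G, IsPoint x y z p ∧
        ∀ u ∈ QGroup β x ⊔ QGroup β y ⊔ QGroup β z, ∀ v ∈ QGroup β x ⊔ QGroup β y ⊔ QGroup β z,
          u ∈ QGroup β p ∨ v ∈ QGroup β p ∨ u + v ∈ QGroup β p) → Elem S) := by
  have main : (∀ x y z : S.G, (quats S (Subgroup.closure {x, y, z} : Subgroup S.G)).ncard ≤ 27 ∨
      (∀ p : S.G, IsPoint x y z p → Nat.card (QGroup β p) ≤ 4) ∨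
      ∃ p : S.G, IsPoint x y z p ∧
        ∀ u ∈ QGroup β x ⊔ QGroup β y ⊔ QGroup β z, ∀ v ∈ QGroup β x ⊔ QGroup β y ⊔ QGroup β z,
          u ∈ QGroup β p ∨ v ∈ QGroup β p ∨ u + v ∈ QGroup β p) → Elem S := by
    intro h
    refine Pool.Agent.N88.TS.elem27 S hS hfin hB β hmul hq fun x y z => ?_
    rcases h x y z with h | h | h
    · exact Or.inr h
    · exact Or.inl (Or.inl h)
    · exact Or.inl (Or.inr h)
  refine ⟨fun h => main fun x y z => Or.inl (le_trans ?_ h), main⟩
  have hfQ : (quats S Set.univ).Finite := by
    refine (Set.finite_range (fun p : S.G × S.G => S.q p.1 p.2)).subset ?_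
    rintro t ⟨g, -, b, rfl⟩
    exact ⟨(g, b), rfl⟩
  refine Set.ncard_le_ncard ?_ hfQ
  rintro t ⟨g, -, b, rfl⟩
  exact ⟨g, trivial, b, rfl⟩

end Pool.Agent.Results.MP_d26ff6_al.FewQuaternions
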