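import Pool.Agent.N908.FR2.Rigid

/-! # MP_d26ff6_al: value groups of large index and few symbols

Quaternionic structures `S = (G, -1, q)` with `-1 = 1`, `|G| = 2 ^ n`, `V(a) = {b : q(a,b) = 0}`.  A
symbol is a biadditive map `χ : G × G → Z/2` which vanishes where `q` does; `σ` is the number of
symbols, so `σ ≤ 2 ^ (n (n-1)/2)`.  If `R` is the space spanned by the `a ∧ b` with `q(a,b) = 0`,
then `σ |R| = 2 ^ (n (n-1)/2)`.

Theorem. (1) `S` is obtained by group extensions and products with the structure of order one from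
a structure `T` with `|T|² σ ≤ 2 ^ (n (n-1)/2 + 5)`.
(2) `S` is of elementary type if `σ ≥ 2 ^ (n (n-1)/2 - 4)`, or if `q` is additive and
`σ ≥ 2 ^ (n (n-1)/2 - 6)`.
(3) If `S` is not a group extension and all `V(a)`, `a ≠ 1`, have index at least `2 ^ c`, `c ≥ 1`,
then `dim R ≥ (c+1) n - (3c² + 5c + 3)`.  The product of two superrigid structures of the orders
`2 ^ (c+1)` and `2 ^ (n-c-1)` has `dim R = (c+1)(n-c-1)`.

Outline.  Contraction with a linear form `f` on `G` maps `R` to `ker f`; the kernel is the space of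
relations inside `ker f`.  Every element `a` which is not rigid gives either an element of the image
(if `V(a)` is not contained in `ker f`) or a relation in the kernel.  An average over all `f`, or
over all flags, shows that image and kernel are large simultaneously, unless many of the lines
`{a, b, ab}`, `q(a,b) = 0`, meet, that is, unless some value group has small index.  A value group
of small index gives many relations `a ∧ b` by itself, and one passes to the quotient `G/{1,a}`,
where a positive proportion of the elements is still not rigid. -/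

set_option autoImplicit false

namespace Pool.Agent.Results.MP_d26ff6_al.IndexRelations

open Pool.Agent.H315R3.ETC

universe v

/-- `χ : G × G → Z/2` is a symbol on `S`: it is biadditive, and zero where `q` is zero -/
def IsSymbol (S : QData) (χ : S.G → S.G → ZMod 2) : Prop :=
  (∀ a b c, χ (a * b) c = χ a c + χ b c) ∧ (∀ a b c, χ a (b * c) = χ a b + χ a c) ∧
    ∀ a b, S.q a b = S.zero → χ a b = 0

/-- the number of symbols on `S` -/
noncomputable def numSymbols (S : QData) : ℕ := Nat.card {χ : S.G → S.G → ZMod 2 // IsSymbol S χ}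

/-- `S` is obtained from `T` by finitely many group extensions and direct products with the
structure `L10` of order one with `-1 = 1` -/
inductive BuiltFrom (T : QData) : QData → Prop
  | base : BuiltFrom T T
  | ext (S : QData) : BuiltFrom T S → BuiltFrom T (ext S)
  | rad (S : QData) : BuiltFrom T S → BuiltFrom T (prod S L10)
  | iso (S S' : QData) : BuiltFrom T S → Iso S S' → BuiltFrom T S'

theorem built {T S : QData} (h : Pool.Agent.N908.FR2.Gen T S) : BuiltFrom T S := by
  induction h with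
  | base => exact BuiltFrom.base
  | ext S _ ih => exact BuiltFrom.ext S ih
  | rad S _ ih => exact BuiltFrom.rad S ih
  | iso S S' _ hi ih => exact BuiltFrom.iso S S' ih hi

theorem result (S : QData) (hS : IsQuat S) (hneg : S.neg = 1) (n : ℕ)
    (hn : Nat.card S.G = 2 ^ n) :
    -- `S` comes from a small structure without rigid elements and without radical
    (∃ T : QData, IsQuat T ∧ T.neg = 1 ∧ BuiltFrom T S ∧
      (∀ a : T.G, a ≠ 1 →
        (∃ b, T.q a b = T.zero ∧ b ≠ 1 ∧ b ≠ a) ∧ ∃ b, T.q a b ≠ T.zero) ∧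
      Nat.card T.G ^ 2 * numSymbols S ≤ 2 ^ (n.choose 2 + 5) ∧
      ∀ c : ℕ, 1 ≤ c →
        (∀ a : T.G, a ≠ 1 → 2 ^ c * {b : T.G | T.q a b = T.zero}.ncard ≤ Nat.card T.G) →
        Nat.card T.G ^ (c + 1) * numSymbols S ≤ 2 ^ (n.choose 2 + (3 * c ^ 2 + 5 * c + 3))) ∧
    -- elementary type
    (2 ^ n.choose 2 ≤ 16 * numSymbols S → Elem S) ∧
    -- the quaternions lie in a group `B` of exponent two in which `q` is additive
    ((∃ (B : Type v) (_ : AddCommGroup B) (β : S.G → S.G → B), (∀ b : B, b + b = 0) ∧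
        (∀ a b c, β a (b * c) = β a b + β a c) ∧
        (∀ a b c d, β a b = β c d ↔ S.q a b = S.q c d)) →
      2 ^ n.choose 2 ≤ 64 * numSymbols S → Elem S) ∧
    -- structures which are not group extensions
    ((¬ ∃ T : QData, IsQuat T ∧ Iso (ext T) S) →
      ((∀ a : S.G, a ≠ 1 → ∃ b, S.q a b ≠ S.zero) →
        4 ^ n * numSymbols S ≤ 2 ^ (n.choose 2 + 5)) ∧
      (∀ c : ℕ, 1 ≤ c →
        (∀ a : S.G, a ≠ 1 → 2 ^ c * {b : S.G | S.q a b = S.zero}.ncard ≤ 2 ^ n) →
        2 ^ ((c + 1) * n) * numSymbols S ≤ 2 ^ (n.choose 2 + (3 * c ^ 2 + 5 * c + 3))) ∧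
      ∀ s : ℕ, 1 ≤ s →
        (∀ a : S.G, a ≠ 1 → 2 ^ (2 * s + 1) * {b : S.G | S.q a b = S.zero}.ncard ≤ 2 ^ n) →
        2 ^ (s * n + 1) * numSymbols S ≤ 2 ^ (n.choose 2 + s * (s + 1))) := by
  have hs : numSymbols S = Pool.Agent.N88.FR.numSy S := rfl
  refine ⟨?_, ?_, ?_, ?_⟩
  · obtain ⟨T, m, a1, a2, a3, a4, -, a6, a7, -⟩ := Pool.Agent.N908.FR2.gen_core.{0} n S hS hneg hn
    have hfin : Finite T.G := Nat.finite_of_card_ne_zero (by rw [a4]; positivity)
    have hpos : 0 < 2 ^ m.choose 2 := by positivity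
    have key : ∀ x k : ℕ, x * Pool.Agent.N88.FR.numSy T ≤ 2 ^ (m.choose 2 + k) →
        x * numSymbols S ≤ 2 ^ (n.choose 2 + k) := by
      intro x k hx
      rw [hs]
      refine Nat.le_of_mul_le_mul_left (?_ : 2 ^ m.choose 2 * _ ≤ 2 ^ m.choose 2 * _) hpos
      calc 2 ^ m.choose 2 * (x * Pool.Agent.N88.FR.numSy S) =
            x * (Pool.Agent.N88.FR.numSy S * 2 ^ m.choose 2) := by ring
        _ ≤ x * (Pool.Agent.N88.FR.numSy T * 2 ^ n.choose 2) := Nat.mul_le_mul_left _ a7
        _ = x * Pool.Agent.N88.FR.numSy T * 2 ^ n.choose 2 := by ring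
        _ ≤ 2 ^ (m.choose 2 + k) * 2 ^ n.choose 2 := Nat.mul_le_mul_right _ hx
        _ = _ := by rw [pow_add, pow_add]; ring
    refine ⟨T, a2, a3, built a1, a6, key _ _ ?_, fun c hc1 hc => key _ _ ?_⟩
    · have h1 := Pool.Agent.N908.FR2.core_bound a2 a3 a4 a6
      have h2 : Nat.card T.G ^ 2 = 4 ^ m := by
        rw [a4, ← pow_mul, mul_comm, pow_mul]
        norm_num
      rw [h2]
      exact h1
    · rw [a4] at hc ⊢
      rw [← pow_mul, mul_comm m]
      exact Pool.Agent.N908.FR2.index_bound2 a2 a3 a4 hc1 fun a ha => ⟨(a6 a ha).1, hc a ha⟩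
  · exact Pool.Agent.N908.FR2.elem_many hS hneg hn
  · rintro ⟨B, _, β, h1, h2, h3⟩ h
    exact Pool.Agent.N908.FR2.elem_many' hS hneg hn h ⟨h1, h2, h3⟩
  · exact Pool.Agent.N908.FR2.not_ext hS hneg hn

end Pool.Agent.Results.MP_d26ff6_al.IndexRelations
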