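import Pool.Agent.N16.Gor.WinThm

set_option autoImplicit false

/-! # MP_d26ff6_al: quaternionic structures with a socle functional, orders at most twenty

`V(z)` denotes the group of the `b` with `q(z,b) = 0`, and `F(x) = s(⟨x⟩)` for an additive map `s`
from the Witt ring to `Z/2` which kills the fourth power of the fundamental ideal and detects the
twofold and threefold Pfister forms (`Socle`). -/

namespace Pool.Agent.Results.MP_d26ff6_al.SocleWindow

open Pool.Agent.H315R3.ETC Pool.Agent.N16.Gor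

/-- A finite nondegenerate structure with a socle functional which is not of elementary type has
`|G| ≥ 2^21`. All its value groups `V(z)`, `z ≠ 1`, satisfy `64 |G| < |V(z)|^4` and have an index
`4^k` with `k ≥ 2`; some `z ≠ 1` has `|V(z)|^3 ≤ |G|`; and the `V(z)`, `z ≠ 1`, do not all have the
same order. -/
theorem result (S : QData) (h : IsQuat S) (hfin : Finite S.G)
    (hnd : ∀ a : S.G, (∀ b : S.G, S.q a b = S.zero) → a = 1)
    (F : S.G → ZMod 2) (hF : Socle S F) (hne : ¬ Elem S) :
    2 ^ 21 ≤ Nat.card S.G ∧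
    (∀ z : S.G, z ≠ 1 → 64 * Nat.card S.G < {b : S.G | S.q z b = S.zero}.ncard ^ 4 ∧
      ∃ k : ℕ, 2 ≤ k ∧ 4 ^ k * {b : S.G | S.q z b = S.zero}.ncard = Nat.card S.G) ∧
    (∃ z : S.G, z ≠ 1 ∧ {b : S.G | S.q z b = S.zero}.ncard ^ 3 ≤ Nat.card S.G) ∧
    ∃ a b : S.G, a ≠ 1 ∧ b ≠ 1 ∧
      {x : S.G | S.q a x = S.zero}.ncard ≠ {x : S.G | S.q b x = S.zero}.ncard :=
  window_full hF h hnd hne

end Pool.Agent.Results.MP_d26ff6_al.SocleWindow
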